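import Mathlib
import Pool.Agent.Q253.HV.Stm
import Pool.Agent.Q98.HV.Ld
import Pool.Agent.Q98.HV.Pw
import Pool.Agent.Q296.GM.Lp
import Pool.Agent.H855R2.SF.Dir
import Pool.Agent.H385R2.DirU
import Pool.Agent.Q161.CR.Lzf

set_option autoImplicit false

/-!
Project HV: the generalised Riemann hypothesis for one character implies the mean square bound.
-/

namespace Pool.Agent.Q98.HV

open Complex MeasureTheory Filter Topology Set
open Pool.Agent.H295R2
open Pool.Agent.Q296.GM (int_exp exp_cpow)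
open Pool.Agent.Q253.HV (psiC Adm S_BG)

section

variable {q : ℕ} [NeZero q]

omit [NeZero q] in
theorem psiC_floor (χ : DirichletCharacter ℂ q) {x y : ℝ} (h : ⌊x⌋₊ = ⌊y⌋₊) :
    psiC χ x = psiC χ y := by
  unfold psiC; rw [h]

omit [NeZero q] in
theorem psiC_meas (χ : DirichletCharacter ℂ q) : Measurable (fun t : ℝ => psiC χ (Real.exp t)) := by
  have h1 : (fun t : ℝ => psiC χ (Real.exp t)) =
      (fun n : ℕ => ∑ k ∈ Finset.Icc 1 n, ((ArithmeticFunction.vonMangoldt k : ℝ) : ℂ) *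
        χ (k : ZMod q)) ∘ (fun t : ℝ => ⌊Real.exp t⌋₊) := rfl
  rw [h1]
  exact (measurable_from_nat).comp (Nat.measurable_floor.comp Real.measurable_exp)

omit [NeZero q] in
theorem psiC_le (χ : DirichletCharacter ℂ q) {x : ℝ} (hx : 0 ≤ x) :
    ‖psiC χ x‖ ≤ (Real.log 4 + 4) * x := by
  refine le_trans ?_ (Chebyshev.psi_le_const_mul_self hx)
  unfold psiC Chebyshev.psi
  refine (norm_sum_le _ _).trans ?_
  have h3 : Finset.Icc 1 ⌊x⌋₊ = Finset.Ioc 0 ⌊x⌋₊ := rfl
  rw [h3]
  refine Finset.sum_le_sum fun k _ => ?_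
  rw [norm_mul, Complex.norm_real, Real.norm_of_nonneg ArithmeticFunction.vonMangoldt_nonneg]
  have h4 : (0 : ℝ) ≤ ArithmeticFunction.vonMangoldt k := ArithmeticFunction.vonMangoldt_nonneg
  have h5 := DirichletCharacter.norm_le_one χ (k : ZMod q)
  nlinarith

/-- the normalised function -/
noncomputable def kc (χ : DirichletCharacter ℂ q) (u : ℝ) : ℂ :=
  if 0 ≤ u then psiC χ (Real.exp u) * ((Real.exp (-u) : ℝ) : ℂ) else 0

/-- its transform -/
noncomputable def FC (χ : DirichletCharacter ℂ q) (s : ℂ) : ℂ :=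
  -(deriv (DirichletCharacter.LFunction χ) s / DirichletCharacter.LFunction χ s) / s

omit [NeZero q] in
theorem kc_meas (χ : DirichletCharacter ℂ q) : Measurable (kc χ) := by
  unfold kc
  refine Measurable.ite measurableSet_Ici ?_ measurable_const
  exact (psiC_meas χ).mul (Complex.measurable_ofReal.comp (Real.measurable_exp.comp measurable_neg))

theorem kc_nice (χ : DirichletCharacter ℂ q) : Nice (kc χ) (Real.log 4 + 4) 0 0 where
  meas := kc_meas χ
  bound := by
    intro u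
    have h4 : 0 ≤ Real.log 4 := Real.log_nonneg (by norm_num)
    unfold kc
    split_ifs with h
    · rw [norm_mul, Complex.norm_real, Real.norm_of_nonneg (Real.exp_pos (-u)).le]
      have h1 := psiC_le χ (Real.exp_pos u).le
      calc ‖psiC χ (Real.exp u)‖ * Real.exp (-u)
          ≤ (Real.log 4 + 4) * Real.exp u * Real.exp (-u) :=
            mul_le_mul_of_nonneg_right h1 (Real.exp_pos _).le
        _ = Real.log 4 + 4 := by rw [mul_assoc, ← Real.exp_add]; simp
        _ ≤ _ := by simp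
    · rw [norm_zero]
      positivity
  zero := by
    intro u hu
    unfold kc
    rw [if_neg (by linarith)]

/-- the Laplace transform of `ψ(e^u, χ)` -/
theorem lap_psiC (χ : DirichletCharacter ℂ q) {s : ℂ} (hs : 1 < s.re) :
    ∫ u in Ioi (0 : ℝ), psiC χ (Real.exp u) * Complex.exp (-(s * u)) = FC χ s := by
  have hs0 : s ≠ 0 := by rintro rfl; simp at hs; linarith
  have hO : (fun n : ℕ => ∑ k ∈ Finset.Icc 1 n,
      ‖((fun n : ℕ => (χ n : ℂ)) * (fun n : ℕ => ((ArithmeticFunction.vonMangoldt n : ℝ) : ℂ))) k‖)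
      =O[atTop] fun n : ℕ => (n : ℝ) ^ (1 : ℝ) := by
    refine Asymptotics.IsBigO.of_bound (Real.log 4 + 4) (Eventually.of_forall fun n => ?_)
    have h1 := Chebyshev.psi_le_const_mul_self (x := (n : ℝ)) (Nat.cast_nonneg n)
    have h2 := Chebyshev.psi_nonneg (n : ℝ)
    unfold Chebyshev.psi at h1 h2
    rw [Nat.floor_natCast] at h1 h2
    have h3 : Finset.Icc 1 n = Finset.Ioc 0 n := rfl
    rw [h3, Real.norm_of_nonneg (Finset.sum_nonneg fun k _ => norm_nonneg _), Real.rpow_one,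
      Real.norm_of_nonneg (Nat.cast_nonneg n)]
    refine (Finset.sum_le_sum fun k _ => ?_).trans h1
    rw [Pi.mul_apply, norm_mul, Complex.norm_real,
      Real.norm_of_nonneg ArithmeticFunction.vonMangoldt_nonneg]
    have h4 : (0 : ℝ) ≤ ArithmeticFunction.vonMangoldt k := ArithmeticFunction.vonMangoldt_nonneg
    have h5 := DirichletCharacter.norm_le_one χ (k : ZMod q)
    nlinarith
  have h1 := LSeries_eq_mul_integral' _ zero_le_one hs hO
  rw [Pool.Agent.Q161.CR.LSeries_eq_DLc χ hs, int_exp] at h1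
  have h2 : ∀ u : ℝ, (Real.exp u : ℂ) *
      ((∑ k ∈ Finset.Icc 1 ⌊Real.exp u⌋₊, ((fun n : ℕ => (χ n : ℂ)) *
        (fun n : ℕ => ((ArithmeticFunction.vonMangoldt n : ℝ) : ℂ))) k) *
        ((Real.exp u : ℝ) : ℂ) ^ (-(s + 1))) =
      psiC χ (Real.exp u) * Complex.exp (-(s * u)) := by
    intro u
    have h3 : (∑ k ∈ Finset.Icc 1 ⌊Real.exp u⌋₊, ((fun n : ℕ => (χ n : ℂ)) *
        (fun n : ℕ => ((ArithmeticFunction.vonMangoldt n : ℝ) : ℂ))) k) =
        psiC χ (Real.exp u) := by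
      unfold psiC
      refine Finset.sum_congr rfl fun k _ => ?_
      rw [Pi.mul_apply, mul_comm]
    rw [h3, exp_cpow, Complex.ofReal_exp]
    calc Complex.exp u * (psiC χ (Real.exp u) * Complex.exp (-(s + 1) * u))
        = psiC χ (Real.exp u) * (Complex.exp u * Complex.exp (-(s + 1) * u)) := by
          ring
      _ = _ := by
          rw [← Complex.exp_add]
          congr 2
          ring
  simp_rw [h2] at h1
  unfold FC
  rw [h1, mul_div_cancel_left₀ _ hs0]

theorem lap_kc (χ : DirichletCharacter ℂ q) {s : ℂ} (hs : 0 < s.re) :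
    Lap (kc χ) s = FC χ (s + 1) := by
  have hs1 : 1 < (s + 1).re := by simp; linarith
  rw [← lap_psiC χ hs1]
  unfold Lap
  have e1 : ∀ u : ℝ, kc χ u * Complex.exp (-(s * u)) =
      (Ici (0 : ℝ)).indicator (fun u : ℝ => psiC χ (Real.exp u) *
        Complex.exp (-((s + 1) * u))) u := by
    intro u
    unfold kc
    by_cases hu : 0 ≤ u
    · rw [if_pos hu, indicator_of_mem (show u ∈ Ici (0 : ℝ) from hu)]
      push_cast
      have e2 : Complex.exp (-u) * Complex.exp (-(s * u)) = Complex.exp (-((s + 1) * u)) := by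
        rw [← Complex.exp_add]; congr 1; ring
      rw [mul_assoc, e2]
    · rw [if_neg hu, indicator_of_notMem (show u ∉ Ici (0 : ℝ) from hu), zero_mul]
  simp_rw [e1]
  rw [integral_indicator measurableSet_Ici, integral_Ici_eq_integral_Ioi]

omit [NeZero q] in
theorem kc_right (χ : DirichletCharacter ℂ q) (u : ℝ) :
    Tendsto (fun v : ℝ => kc χ (u + v)) (𝓝[≥] 0) (𝓝 (kc χ u)) := by
  rcases lt_or_ge u 0 with hu | hu
  · have h1 : kc χ u = 0 := by unfold kc; rw [if_neg (by linarith)]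
    rw [h1]
    refine tendsto_const_nhds.congr' ?_
    have : ∀ᶠ v in 𝓝[≥] (0 : ℝ), v < -u := by
      filter_upwards [mem_nhdsWithin_of_mem_nhds (Iio_mem_nhds (show (0 : ℝ) < -u by linarith))]
        with v hv
      exact hv
    filter_upwards [this] with v hv
    unfold kc
    rw [if_neg (by linarith)]
  · have hfl : Real.exp u < (⌊Real.exp u⌋₊ : ℝ) + 1 := Nat.lt_floor_add_one _
    have hc : ContinuousAt (fun v : ℝ => Real.exp (u + v)) 0 := by fun_prop
    have h1 : ∀ᶠ v in 𝓝 (0 : ℝ), Real.exp (u + v) < (⌊Real.exp u⌋₊ : ℝ) + 1 := by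
      have := hc.eventually_lt (g := fun _ => (⌊Real.exp u⌋₊ : ℝ) + 1) continuousAt_const
        (by simpa using hfl)
      exact this
    have h2 : ∀ᶠ v in 𝓝[≥] (0 : ℝ), psiC χ (Real.exp u) *
        ((Real.exp (-(u + v)) : ℝ) : ℂ) = kc χ (u + v) := by
      filter_upwards [mem_nhdsWithin_of_mem_nhds h1, self_mem_nhdsWithin] with v hv hv0
      have hv0' : (0 : ℝ) ≤ v := hv0
      unfold kc
      rw [if_pos (by linarith)]
      congr 1
      refine psiC_floor χ ?_
      refine le_antisymm (Nat.floor_mono (Real.exp_le_exp.2 (by linarith))) ?_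
      rw [← Nat.lt_succ_iff, Nat.floor_lt (Real.exp_pos _).le]
      push_cast
      exact hv
    refine Tendsto.congr' h2 ?_
    have h3 : kc χ u = psiC χ (Real.exp u) * ((Real.exp (-(u + 0)) : ℝ) : ℂ) := by
      unfold kc
      rw [if_pos hu, add_zero]
    rw [h3]
    have h4 : Continuous (fun v : ℝ => psiC χ (Real.exp u) * ((Real.exp (-(u + v)) : ℝ) : ℂ)) := by
      fun_prop
    exact (h4.tendsto 0).mono_left nhdsWithin_le_nhds

theorem FC_bound (χ : DirichletCharacter ℂ q) (h1 : χ ≠ 1)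
    (hne : ∀ s : ℂ, 1 / 2 < s.re → DirichletCharacter.LFunction χ s ≠ 0) {σ : ℝ}
    (hσ : 1 / 2 < σ) (hσ1 : σ ≤ 1) :
    ∃ C : ℝ, 0 < C ∧ ∀ s : ℂ, σ ≤ s.re → s.re ≤ 2 →
      ‖FC χ s‖ ≤ C * (1 + |s.im|) ^ (-(3 / 4) : ℝ) := by
  obtain ⟨c, hc, hlow⟩ := H385.U_lower
  have hup : ∀ s : ℂ, 1 / 2 < s.re → ‖DirichletCharacter.LFunction χ s‖ ≤
      (2 * (q + 1)) * (‖s‖ + 1) ^ 2 := by
    intro s hs
    have h2 := H855R2.SF.growth_right h1 (s := s) (by linarith)
    refine h2.trans ?_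
    have h3 : ((q : ℝ) + 1) / s.re ≤ 2 * (q + 1) := by
      rw [div_le_iff₀ (by linarith)]
      have : (0 : ℝ) ≤ q := Nat.cast_nonneg q
      nlinarith
    have h4 : ‖s‖ ≤ (‖s‖ + 1) ^ 2 := by nlinarith [norm_nonneg s]
    calc ‖s‖ * (((q : ℝ) + 1) / s.re) ≤ (‖s‖ + 1) ^ 2 * (2 * (q + 1)) := by gcongr
      _ = _ := mul_comm _ _
  have hM : (1 : ℝ) ≤ 2 * (q + 1) := by
    have : (0 : ℝ) ≤ q := Nat.cast_nonneg q
    linarith
  have hK : ∀ t : ℝ, (max 1 c⁻¹)⁻¹ ≤ ‖DirichletCharacter.LFunction χ ⟨2, t⟩‖ := by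
    intro t
    refine le_trans ?_ (hlow q χ t)
    rw [inv_le_comm₀ (by positivity) hc]
    exact le_max_right _ _
  obtain ⟨C, hC, hb⟩ := ld_gen (DirichletCharacter.differentiable_LFunction h1) hne hM hup
    (le_max_left 1 c⁻¹) hK hσ hσ1
  refine ⟨3 * (1 + C), by positivity, fun s hs1 hs2 => ?_⟩
  have h1 := hb s hs1 hs2
  have hr : 1 ≤ (1 + |s.im|) ^ (1 / 4 : ℝ) :=
    Real.one_le_rpow (by linarith [abs_nonneg s.im]) (by norm_num)
  have hs : 1 + |s.im| ≤ 3 * ‖s‖ := by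
    have e1 := Complex.abs_im_le_norm s
    have e2 := Complex.abs_re_le_norm s
    have e3 := le_abs_self s.re
    linarith
  have hspos : 0 < ‖s‖ := by linarith [abs_nonneg s.im]
  unfold FC
  rw [norm_div, norm_neg, div_le_iff₀ hspos]
  refine h1.trans ?_
  have h3 : (1 + |s.im|) ^ (1 / 4 : ℝ) = (1 + |s.im|) ^ (-(3 / 4) : ℝ) * (1 + |s.im|) := by
    have hp : (0 : ℝ) < 1 + |s.im| := by positivity
    nth_rewrite 3 [← Real.rpow_one (1 + |s.im|)]
    rw [← Real.rpow_add hp]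
    norm_num
  rw [h3]
  have h4 : 0 ≤ (1 + |s.im|) ^ (-(3 / 4) : ℝ) := by positivity
  have h5 : 0 ≤ C * (1 + |s.im|) ^ (-(3 / 4) : ℝ) := by positivity
  nlinarith [mul_le_mul_of_nonneg_left hs h5, mul_nonneg h4 hspos.le]

theorem dat (χ : DirichletCharacter ℂ q) (h1 : χ ≠ 1)
    (hne : ∀ s : ℂ, 1 / 2 < s.re → DirichletCharacter.LFunction χ s ≠ 0) :
    Dat (kc χ) (FC χ) (Real.log 4 + 4) where
  nice := kc_nice χ
  diff := by
    intro s hs
    unfold FC
    have hs0 : s ≠ 0 := by rintro rfl; simp at hs; linarith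
    have hd := DirichletCharacter.differentiable_LFunction h1
    have h2 : DifferentiableAt ℂ (deriv (DirichletCharacter.LFunction χ)) s := hd.deriv s
    exact ((h2.div (hd s) (hne s hs)).neg).div differentiableAt_id hs0
  bd := fun hσ hσ1 => FC_bound χ h1 hne hσ hσ1
  lap := fun hs => lap_kc χ hs
  right := kc_right χ

end

theorem t_BG : S_BG := by
  intro q _ χ h1 hne
  refine ⟨(psiC_meas χ).aestronglyMeasurable, fun σ0 hσ0 => ?_⟩
  set σ : ℝ := min σ0 (3 / 4) with hσd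
  have hσ : 1 / 2 < σ := by rw [hσd, lt_min_iff]; constructor <;> linarith
  have hσ1 : σ < 1 := by
    have : σ ≤ 3 / 4 := min_le_right _ _
    linarith
  have hσθ : σ ≤ σ0 := min_le_left _ _
  have h1 := kk_L2 (dat χ h1 hne) hσ hσ1
  have hm : Measurable (fun u : ℝ => kc χ u * Complex.exp (-((σ - 1 : ℝ) : ℂ) * u)) := by
    have := kc_meas χ
    fun_prop
  have h2 : Integrable (fun u : ℝ => ‖kc χ u * Complex.exp (-((σ - 1 : ℝ) : ℂ) * u)‖ ^ 2) := by
    refine ⟨(hm.norm.pow_const 2).aestronglyMeasurable, ?_⟩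
    rw [hasFiniteIntegral_iff_enorm]
    refine lt_of_le_of_lt (le_of_eq (lintegral_congr fun u => ?_)) h1
    rw [enorm_pow, enorm_norm]
  have h3 := h2.integrableOn (s := Ioi (0 : ℝ))
  refine Integrable.mono' h3 ?_ ?_
  · exact (((psiC_meas χ).norm.pow_const 2).mul (by fun_prop)).aestronglyMeasurable
  · refine (ae_restrict_mem measurableSet_Ioi).mono fun u hu => ?_
    have hu0 : (0 : ℝ) < u := hu
    rw [Real.norm_of_nonneg (by positivity)]
    unfold kc
    rw [if_pos hu0.le, norm_mul, norm_mul, Complex.norm_real,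
      Real.norm_of_nonneg (Real.exp_pos _).le, Complex.norm_exp]
    have e1 : (-((σ - 1 : ℝ) : ℂ) * u).re = -(σ - 1) * u := by
      rw [← Complex.ofReal_neg, ← Complex.ofReal_mul, Complex.ofReal_re]
    rw [e1, mul_pow, mul_pow, mul_assoc (‖psiC χ (Real.exp u)‖ ^ 2), ← Real.exp_nat_mul,
      ← Real.exp_nat_mul, ← Real.exp_add]
    refine mul_le_mul_of_nonneg_left (Real.exp_le_exp.2 ?_) (sq_nonneg _)
    push_cast
    nlinarith

end Pool.Agent.Q98.HV
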